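import Mathlib
import Pool.Agent.helper64.OT.SpecM

/-!
# Row ot:GF (MP_f6e9a2_nt): the fourfold Gauss sum
-/

set_option autoImplicit false

namespace Pool.Agent.OT

open Finset

theorem GF_add {p : ℕ} [NeZero p] (x y : ZMod p) : ps (x + y) = ps x * ps y := by
  unfold ps
  exact AddChar.map_add_eq_mul _ _ _

theorem GF_lin {p : ℕ} [Fact p.Prime] (m : ZMod p) : ∑ x : ZMod p, ps (m * x) = if m = 0 then (p : ℂ) else 0 := by
  have h1 := AddChar.sum_mulShift (R := ZMod p) (R' := ℂ) (ψ := ZMod.stdAddChar) m (ZMod.isPrimitive_stdAddChar p)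
  unfold ps
  rw [ZMod.card p, Nat.cast_ite, Nat.cast_zero] at h1
  rw [← h1]
  exact Finset.sum_congr rfl fun x _ => by rw [mul_comm]

theorem GF_move {p : ℕ} [Fact p.Prime] (f : ZMod p → ZMod p → ZMod p → ZMod p → ℂ) :
    ∑ x₁ : ZMod p, ∑ x₂ : ZMod p, ∑ x₃ : ZMod p, ∑ x₄ : ZMod p, f x₁ x₂ x₃ x₄ =
      ∑ x₄ : ZMod p, ∑ x₃ : ZMod p, ∑ x₂ : ZMod p, ∑ x₁ : ZMod p, f (x₁ + x₄) (x₂ + x₄) (x₃ + x₄) x₄ := by
  have h1 : ∑ x₁ : ZMod p, ∑ x₂ : ZMod p, ∑ x₃ : ZMod p, ∑ x₄ : ZMod p, f x₁ x₂ x₃ x₄ =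
      ∑ x₄ : ZMod p, ∑ x₁ : ZMod p, ∑ x₂ : ZMod p, ∑ x₃ : ZMod p, f x₁ x₂ x₃ x₄ := by
    calc ∑ x₁ : ZMod p, ∑ x₂ : ZMod p, ∑ x₃ : ZMod p, ∑ x₄ : ZMod p, f x₁ x₂ x₃ x₄
        = ∑ x₁ : ZMod p, ∑ x₂ : ZMod p, ∑ x₄ : ZMod p, ∑ x₃ : ZMod p, f x₁ x₂ x₃ x₄ :=
          Finset.sum_congr rfl fun x₁ _ => Finset.sum_congr rfl fun x₂ _ => Finset.sum_comm
      _ = ∑ x₁ : ZMod p, ∑ x₄ : ZMod p, ∑ x₂ : ZMod p, ∑ x₃ : ZMod p, f x₁ x₂ x₃ x₄ :=
          Finset.sum_congr rfl fun x₁ _ => Finset.sum_comm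
      _ = _ := Finset.sum_comm
  rw [h1]
  refine Finset.sum_congr rfl fun x₄ _ => ?_
  have h2 : ∑ x₁ : ZMod p, ∑ x₂ : ZMod p, ∑ x₃ : ZMod p, f x₁ x₂ x₃ x₄ =
      ∑ x₁ : ZMod p, ∑ x₂ : ZMod p, ∑ x₃ : ZMod p, f (x₁ + x₄) (x₂ + x₄) (x₃ + x₄) x₄ := by
    rw [← Equiv.sum_comp (Equiv.addRight x₄) (fun x₁ => ∑ x₂ : ZMod p, ∑ x₃ : ZMod p, f x₁ x₂ x₃ x₄)]
    refine Finset.sum_congr rfl fun x₁ _ => ?_
    rw [← Equiv.sum_comp (Equiv.addRight x₄) (fun x₂ => ∑ x₃ : ZMod p, f ((Equiv.addRight x₄) x₁) x₂ x₃ x₄)]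
    refine Finset.sum_congr rfl fun x₂ _ => ?_
    rw [← Equiv.sum_comp (Equiv.addRight x₄) (fun x₃ => f ((Equiv.addRight x₄) x₁) ((Equiv.addRight x₄) x₂) x₃ x₄)]
    rfl
  rw [h2]
  calc ∑ x₁ : ZMod p, ∑ x₂ : ZMod p, ∑ x₃ : ZMod p, f (x₁ + x₄) (x₂ + x₄) (x₃ + x₄) x₄
      = ∑ x₁ : ZMod p, ∑ x₃ : ZMod p, ∑ x₂ : ZMod p, f (x₁ + x₄) (x₂ + x₄) (x₃ + x₄) x₄ :=
        Finset.sum_congr rfl fun x₁ _ => Finset.sum_comm
    _ = ∑ x₃ : ZMod p, ∑ x₁ : ZMod p, ∑ x₂ : ZMod p, f (x₁ + x₄) (x₂ + x₄) (x₃ + x₄) x₄ := Finset.sum_comm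
    _ = _ := Finset.sum_congr rfl fun x₃ _ => Finset.sum_comm

theorem GF : GF_stmt := by
  intro p _ g hp hG h lam a b c d hh hl0 hl1
  have hlam : (1 : ZMod p) - lam ≠ 0 := sub_ne_zero.mpr (Ne.symm hl1)
  have h2 : (2 : ZMod p) ≠ 0 := by
    intro h0
    have h1 : ((2 : ℕ) : ZMod p) = 0 := by exact_mod_cast h0
    rw [ZMod.natCast_eq_zero_iff] at h1
    exact hp ((Nat.prime_dvd_prime_iff_eq Fact.out Nat.prime_two).mp h1)
  have h4 : (4 : ZMod p) ≠ 0 := by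
    have h1 : (4 : ZMod p) = 2 * 2 := by norm_num
    rw [h1]
    exact mul_ne_zero h2 h2
  have hA : h * (lam / (1 - lam)) ≠ 0 := mul_ne_zero hh (div_ne_zero hl0 hlam)
  -- the sum over the differences
  have hE : ∑ w : ZMod p, ∑ v : ZMod p, ∑ u : ZMod p,
      ps (h * ((1 - lam) * (u * v) - v * w + lam * (u * w)) + (a * u + b * v + c * w)) =
      (p : ℂ) * (g * ((quadraticChar (ZMod p) (h * (lam / (1 - lam))) : ℤ) : ℂ) *
      ps (-(PX a b c lam / (4 * lam * (1 - lam) * h)))) := by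
    have h5 : ∀ w : ZMod p, ∑ v : ZMod p, ∑ u : ZMod p,
        ps (h * ((1 - lam) * (u * v) - v * w + lam * (u * w)) + (a * u + b * v + c * w)) =
        (p : ℂ) * (ps (h * (lam / (1 - lam)) * w ^ 2 + (a + c - lam * (b + c)) / (1 - lam) * w) *
          ps (-(a * b / (h * (1 - lam))))) := by
      intro w
      have h6 : ∀ v : ZMod p, ∑ u : ZMod p,
          ps (h * ((1 - lam) * (u * v) - v * w + lam * (u * w)) + (a * u + b * v + c * w)) =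
          if v = -((a / h + lam * w) / (1 - lam)) then (p : ℂ) * ps (-(h * v * w) + b * v + c * w) else 0 := by
        intro v
        have h7 : ∀ u : ZMod p, ps (h * ((1 - lam) * (u * v) - v * w + lam * (u * w)) + (a * u + b * v + c * w)) =
            ps ((h * ((1 - lam) * v + lam * w) + a) * u) * ps (-(h * v * w) + b * v + c * w) := by
          intro u
          rw [← GF_add]
          congr 1
          ring
        rw [Finset.sum_congr rfl fun u _ => h7 u, ← Finset.sum_mul, GF_lin]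
        have h8 : h * ((1 - lam) * v + lam * w) + a = 0 ↔ v = -((a / h + lam * w) / (1 - lam)) := by
          constructor
          · intro h9
            field_simp
            linear_combination h9
          · intro h9
            rw [h9]
            field_simp
            ring
        by_cases h9 : v = -((a / h + lam * w) / (1 - lam))
        · rw [if_pos h9, if_pos (h8.mpr h9)]
        · rw [if_neg h9, if_neg (fun h10 => h9 (h8.mp h10)), zero_mul]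
      rw [Finset.sum_congr rfl fun v _ => h6 v, Finset.sum_ite_eq' Finset.univ, if_pos (Finset.mem_univ _)]
      congr 1
      rw [← GF_add]
      congr 1
      field_simp
      ring
    rw [Finset.sum_congr rfl fun w _ => h5 w, ← Finset.mul_sum, ← Finset.sum_mul, hG _ _ hA]
    congr 1
    rw [mul_assoc, ← GF_add]
    congr 2
    unfold PX
    field_simp
    ring
  rw [GF_move]
  have h5 : ∀ x₄ x₃ x₂ x₁ : ZMod p, ps (h * qq lam (x₁ + x₄) (x₂ + x₄) (x₃ + x₄) x₄ +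
      (a * (x₁ + x₄) + b * (x₂ + x₄) + c * (x₃ + x₄) + d * x₄)) =
      ps (h * ((1 - lam) * (x₁ * x₂) - x₂ * x₃ + lam * (x₁ * x₃)) + (a * x₁ + b * x₂ + c * x₃)) *
        ps ((a + b + c + d) * x₄) := by
    intro x₄ x₃ x₂ x₁
    rw [← GF_add]
    congr 1
    unfold qq
    ring
  have h6 : ∑ x₄ : ZMod p, ∑ x₃ : ZMod p, ∑ x₂ : ZMod p, ∑ x₁ : ZMod p,
      ps (h * qq lam (x₁ + x₄) (x₂ + x₄) (x₃ + x₄) x₄ +
      (a * (x₁ + x₄) + b * (x₂ + x₄) + c * (x₃ + x₄) + d * x₄)) =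
      (∑ w : ZMod p, ∑ v : ZMod p, ∑ u : ZMod p,
      ps (h * ((1 - lam) * (u * v) - v * w + lam * (u * w)) + (a * u + b * v + c * w))) *
        ∑ x₄ : ZMod p, ps ((a + b + c + d) * x₄) := by
    rw [Finset.mul_sum]
    refine Finset.sum_congr rfl fun x₄ _ => ?_
    rw [Finset.sum_mul]
    refine Finset.sum_congr rfl fun x₃ _ => ?_
    rw [Finset.sum_mul]
    refine Finset.sum_congr rfl fun x₂ _ => ?_
    rw [Finset.sum_mul]
    exact Finset.sum_congr rfl fun x₁ _ => h5 x₄ x₃ x₂ x₁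
  rw [h6, hE, GF_lin]
  by_cases h7 : a + b + c + d = 0
  · rw [if_pos h7, if_pos h7]
    ring
  · rw [if_neg h7, if_neg h7, mul_zero]

end Pool.Agent.OT
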