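import Mathlib
import Pool.Agent.helper64.OT.SpecW

/-!
# Row ot:WMC (MP_f6e9a2_nt): complete multiplicativity
-/

set_option autoImplicit false

namespace Pool.Agent.OT

open Finset Polynomial Pool.Agent.helper82.Weil Pool.Agent.helper82.KL

theorem WMC : WMC_stmt := by
  intro p _ χ r u
  constructor
  · unfold LM
    have h1 : (1 : (ZMod p)[X]).nextCoeff = 0 := by
      rw [← C_1, nextCoeff_C_eq_zero]
    have h2 : (ps (-(u * 0)) : ℂ) = 1 := by
      unfold ps
      rw [mul_zero, neg_zero]
      exact AddChar.map_zero_eq_one _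
    rw [h1, natDegree_one, pow_zero, eval_one, eval_one, one_mul, MulChar.map_one, map_one, one_mul, one_mul, h2]
  · intro g h hg hh
    unfold LM
    have hd : (g * h).natDegree = g.natDegree + h.natDegree := hg.natDegree_mul hh
    have h1 : ∀ x : ZMod p, (-1) ^ (g * h).natDegree * (g * h).eval x =
        ((-1) ^ g.natDegree * g.eval x) * ((-1) ^ h.natDegree * h.eval x) := by
      intro x
      rw [hd, eval_mul, pow_add]
      ring
    have h2 : (ps (-(u * (g * h).nextCoeff)) : ℂ) = ps (-(u * g.nextCoeff)) * ps (-(u * h.nextCoeff)) := by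
      unfold ps
      rw [← AddChar.map_add_eq_mul, hg.nextCoeff_mul hh]
      congr 1
      ring
    have h3 : ∀ x y : ZMod p, χ (x * y) = χ x * χ y := fun x y => map_mul χ x y
    have h4 : ∀ x y : ℂ, (starRingEnd ℂ) (x * y) = (starRingEnd ℂ) x * (starRingEnd ℂ) y := fun x y => map_mul _ x y
    rw [h1, h1, h3 ((-1) ^ g.natDegree * g.eval (-r)), h3 ((-1) ^ g.natDegree * g.eval 0), h4, h2]
    ring

end Pool.Agent.OT
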