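import Pool.Agent.helper35.OT.Spec

/-!
# Project OT (MP_050f5b_nt), row AUX: the auxiliary polynomial
-/

set_option autoImplicit false

namespace Pool.Agent.helper35.OT

open Finset

theorem AUX_ev (g : PowerSeries ℚ) (k : ℕ) (e : ℕ → ℕ → ℤ) (m : ℕ) :
    PowerSeries.coeff m (ev (pol k e) g) =
      ∑ j ∈ range (k + 1), ∑ i ∈ range (k + 1),
        (e i j : ℚ) * PowerSeries.coeff m ((PowerSeries.X : PowerSeries ℚ) ^ i * g ^ j) := by
  unfold ev pol
  rw [Polynomial.eval₂_finsetSum, map_sum]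
  refine Finset.sum_congr rfl (fun j _ => ?_)
  rw [Polynomial.eval₂_mul, Polynomial.eval₂_C, Polynomial.eval₂_X_pow, map_sum, Finset.sum_mul,
    map_sum]
  refine Finset.sum_congr rfl (fun i _ => ?_)
  rw [Polynomial.coeToPowerSeries.ringHom_apply, Polynomial.coe_mul, Polynomial.coe_pow,
    Polynomial.coe_C, Polynomial.coe_X, mul_assoc, PowerSeries.coeff_C_mul]

theorem AUX : AUX_stmt := by
  intro g k
  let φ : (Fin (k + 1) × Fin (k + 1) → ℚ) →ₗ[ℚ] (Fin (k ^ 2) → ℚ) :=
    { toFun := fun v m => ∑ x : Fin (k + 1) × Fin (k + 1),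
        v x * PowerSeries.coeff m.1 ((PowerSeries.X : PowerSeries ℚ) ^ x.1.1 * g ^ x.2.1)
      map_add' := by
        intro v w
        funext m
        simp only [Pi.add_apply, add_mul, Finset.sum_add_distrib]
      map_smul' := by
        intro a v
        funext m
        simp only [Pi.smul_apply, smul_eq_mul, RingHom.id_apply, Finset.mul_sum, mul_assoc] }
  have hker : LinearMap.ker φ ≠ ⊥ := by
    apply LinearMap.ker_ne_bot_of_finrank_lt
    rw [Module.finrank_fintype_fun_eq_card, Module.finrank_fintype_fun_eq_card,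
      Fintype.card_prod, Fintype.card_fin, Fintype.card_fin]
    nlinarith
  obtain ⟨v, hv, hv0⟩ := Submodule.exists_mem_ne_zero_of_ne_bot hker
  rw [LinearMap.mem_ker] at hv
  obtain ⟨b, hb⟩ := IsLocalization.exist_integer_multiples_of_finite (nonZeroDivisors ℤ) v
  choose z hz using hb
  have hz' : ∀ x, (z x : ℚ) = ((b : ℤ) : ℚ) * v x := by
    intro x
    have h := hz x
    rw [zsmul_eq_mul] at h
    exact h
  have hb0 : ((b : ℤ) : ℚ) ≠ 0 := by
    have h := nonZeroDivisors.coe_ne_zero b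
    exact_mod_cast h
  refine ⟨fun i j => if h : i < k + 1 then if h' : j < k + 1 then z (⟨i, h⟩, ⟨j, h'⟩) else 0
    else 0, ?_, ?_⟩
  · obtain ⟨x, hx⟩ := Function.ne_iff.1 hv0
    refine ⟨x.1.1, by omega, x.2.1, by omega, ?_⟩
    beta_reduce
    rw [dif_pos x.1.2, dif_pos x.2.2]
    intro h
    apply hx
    have h2 := hz' x
    rw [show z x = 0 from h, Int.cast_zero] at h2
    rcases mul_eq_zero.1 h2.symm with h3 | h3
    · exact absurd h3 hb0
    · exact h3
  · intro m hm
    rw [AUX_ev]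
    have h1 := congrFun hv ⟨m, hm⟩
    have h2 : ∑ x : Fin (k + 1) × Fin (k + 1), v x *
        PowerSeries.coeff m ((PowerSeries.X : PowerSeries ℚ) ^ x.1.1 * g ^ x.2.1) = 0 := h1
    have h3 : ∑ x : Fin (k + 1) × Fin (k + 1), (z x : ℚ) *
        PowerSeries.coeff m ((PowerSeries.X : PowerSeries ℚ) ^ x.1.1 * g ^ x.2.1) = 0 := by
      have h4 : ∀ x : Fin (k + 1) × Fin (k + 1), (z x : ℚ) *
        PowerSeries.coeff m ((PowerSeries.X : PowerSeries ℚ) ^ x.1.1 * g ^ x.2.1) =
        ((b : ℤ) : ℚ) * (v x *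
        PowerSeries.coeff m ((PowerSeries.X : PowerSeries ℚ) ^ x.1.1 * g ^ x.2.1)) := by
        intro x
        rw [hz', mul_assoc]
      rw [Finset.sum_congr rfl (fun x _ => h4 x), ← Finset.mul_sum, h2, mul_zero]
    rw [Fintype.sum_prod_type, Finset.sum_comm] at h3
    rw [Finset.sum_range, ← h3]
    refine Finset.sum_congr rfl (fun j _ => ?_)
    rw [Finset.sum_range]
    refine Finset.sum_congr rfl (fun i _ => ?_)
    rw [dif_pos i.2, dif_pos j.2]

end Pool.Agent.helper35.OT
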